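import Mathlib.CategoryTheory.Triangulated.Triangulated
import Mathlib.CategoryTheory.Triangulated.Rotate

/-!
# Verdier good maps of triangles, good maps of triangles and chain homotopies
-/

set_option autoImplicit false

open CategoryTheory CategoryTheory.Limits CategoryTheory.Pretriangulated

universe v u

namespace Pool.Agent.N801.VG

variable {𝒯 : Type u} [Category.{v} 𝒯] [Preadditive 𝒯] [HasZeroObject 𝒯] [HasShift 𝒯 ℤ]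
  [∀ n : ℤ, (shiftFunctor 𝒯 n).Additive] [Pretriangulated 𝒯]

/-- The map `φ = (f, g, h)` of exact triangles, from `X –u→ Y –v→ Z –w→ ΣX` to
`X' –u'→ Y' –v'→ Z' –w'→ ΣX'`, is Verdier good: there are exact triangles
`X –gu→ Y' –p→ A –q→ ΣX`, `Y –g→ Y' –g'→ Y'' –g''→ ΣY`, `X –f→ X' –f'→ X'' –f''→ ΣX`, an octahedron
`(α₁, β₁)` for the composition of `u` and `g`, and an octahedron `(α₂, β₂)` for the composition of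
`f` and `u'`, such that `h = β₂ α₁`. -/
def VerdierGood {T T' : Triangle 𝒯} (φ : T ⟶ T') : Prop :=
  ∃ (A X'' Y'' : 𝒯) (p : T'.obj₂ ⟶ A) (q : A ⟶ T.obj₁⟦(1 : ℤ)⟧)
    (g' : T'.obj₂ ⟶ Y'') (g'' : Y'' ⟶ T.obj₂⟦(1 : ℤ)⟧)
    (f' : T'.obj₁ ⟶ X'') (f'' : X'' ⟶ T.obj₁⟦(1 : ℤ)⟧)
    (α₁ : T.obj₃ ⟶ A) (β₁ : A ⟶ Y'') (α₂ : X'' ⟶ A) (β₂ : A ⟶ T'.obj₃),
    Triangle.mk (T.mor₁ ≫ φ.hom₂) p q ∈ distTriang 𝒯 ∧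
    Triangle.mk φ.hom₂ g' g'' ∈ distTriang 𝒯 ∧
    Triangle.mk φ.hom₁ f' f'' ∈ distTriang 𝒯 ∧
    (Triangle.mk α₁ β₁ (g'' ≫ T.mor₂⟦(1 : ℤ)⟧') ∈ distTriang 𝒯 ∧
      T.mor₂ ≫ α₁ = φ.hom₂ ≫ p ∧ α₁ ≫ q = T.mor₃ ∧ p ≫ β₁ = g' ∧
      β₁ ≫ g'' = q ≫ T.mor₁⟦(1 : ℤ)⟧') ∧
    (Triangle.mk α₂ β₂ (T'.mor₃ ≫ f'⟦(1 : ℤ)⟧') ∈ distTriang 𝒯 ∧
      f' ≫ α₂ = T'.mor₁ ≫ p ∧ α₂ ≫ q = f'' ∧ p ≫ β₂ = T'.mor₂ ∧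
      β₂ ≫ T'.mor₃ = q ≫ φ.hom₁⟦(1 : ℤ)⟧') ∧
    φ.hom₃ = α₁ ≫ β₂

/-- The maps `φ = (f, g, h)` and `φ₁ = (f₁, g₁, h₁)` between the same triangles are chain homotopic:
there are `k₁ : Y ⟶ X'`, `k₂ : Z ⟶ Y'` and `k₃ : ΣX ⟶ Z'` such that `f - f₁ = k₁ u + Σ⁻¹(w' k₃)`
(after applying `Σ`), `g - g₁ = u' k₁ + k₂ v` and `h - h₁ = v' k₂ + k₃ w`. -/
def ChainHomotopic {T T' : Triangle 𝒯} (φ φ₁ : T ⟶ T') : Prop :=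
  ∃ (k₁ : T.obj₂ ⟶ T'.obj₁) (k₂ : T.obj₃ ⟶ T'.obj₂) (k₃ : T.obj₁⟦(1 : ℤ)⟧ ⟶ T'.obj₃),
    (φ.hom₁ - φ₁.hom₁)⟦(1 : ℤ)⟧' = (T.mor₁ ≫ k₁)⟦(1 : ℤ)⟧' + k₃ ≫ T'.mor₃ ∧
    φ.hom₂ - φ₁.hom₂ = k₁ ≫ T'.mor₁ + T.mor₂ ≫ k₂ ∧
    φ.hom₃ - φ₁.hom₃ = k₂ ≫ T'.mor₂ + T.mor₃ ≫ k₃

end Pool.Agent.N801.VG
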