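import Mathlib
import Pool.Agent.N801.VG.Defs

/-!
# The example, in terms of three exact triangles
-/

set_option autoImplicit false
set_option linter.unusedSectionVars false

open CategoryTheory CategoryTheory.Limits CategoryTheory.Pretriangulated

universe v u

namespace Pool.Agent.N801.VG

variable (𝒯 : Type u) [Category.{v} 𝒯] [Preadditive 𝒯] [HasZeroObject 𝒯] [HasShift 𝒯 ℤ]
  [∀ n : ℤ, (shiftFunctor 𝒯 n).Additive] [Pretriangulated 𝒯]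

theorem twist {𝒯 : Type u} [Category.{v} 𝒯] [Preadditive 𝒯] [HasZeroObject 𝒯] [HasShift 𝒯 ℤ]
    [∀ n : ℤ, (shiftFunctor 𝒯 n).Additive] [Pretriangulated 𝒯] {X Y Z : 𝒯} {f : X ⟶ Y} {g : Y ⟶ Z}
    {h : Z ⟶ X⟦(1 : ℤ)⟧} (hT : Triangle.mk f g h ∈ distTriang 𝒯) {δ : Y ⟶ Y} (hδ : δ ≫ δ = 0) :
    Triangle.mk (f ≫ (𝟙 Y + δ)) ((𝟙 Y - δ) ≫ g) h ∈ distTriang 𝒯 := by
  have e1 : (𝟙 Y - δ) ≫ (𝟙 Y + δ) = 𝟙 Y := by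
    rw [Preadditive.sub_comp, Category.id_comp, Preadditive.comp_add, Category.comp_id, hδ]
    abel
  have e2 : (𝟙 Y + δ) ≫ (𝟙 Y - δ) = 𝟙 Y := by
    rw [Preadditive.add_comp, Category.id_comp, Preadditive.comp_sub, Category.comp_id, hδ]
    abel
  have e3 : (f ≫ (𝟙 Y + δ)) ≫ (𝟙 Y - δ) = 𝟙 X ≫ f := by
    rw [Category.id_comp, Category.assoc, e2, Category.comp_id]
  have e4 : ((𝟙 Y - δ) ≫ g) ≫ 𝟙 Z = (𝟙 Y - δ) ≫ g := Category.comp_id _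
  have e5 : h ≫ (𝟙 X)⟦(1 : ℤ)⟧' = 𝟙 Z ≫ h := by
    rw [CategoryTheory.Functor.map_id, Category.comp_id, Category.id_comp]
  exact isomorphic_distinguished _ hT _ (Triangle.isoMk _ _ (Iso.refl X) ⟨𝟙 Y - δ, 𝟙 Y + δ, e1, e2⟩
    (Iso.refl Z) e3 e4 e5)

/-- The data of the example. -/
structure Data where
  A2 : 𝒯
  A4 : 𝒯
  A8 : 𝒯
  j : A2 ⟶ A4
  q : A4 ⟶ A2
  e : A2 ⟶ A2⟦(1 : ℤ)⟧
  hj : Triangle.mk j q e ∈ distTriang 𝒯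
  u : A4 ⟶ A8
  v : A8 ⟶ A2
  w : A2 ⟶ A4⟦(1 : ℤ)⟧
  hu : Triangle.mk u v w ∈ distTriang 𝒯
  k : A2 ⟶ A8
  p : A8 ⟶ A4
  d : A4 ⟶ A2⟦(1 : ℤ)⟧
  hk : Triangle.mk k p d ∈ distTriang 𝒯
  h3 : ∀ c : A8 ⟶ A2, u ≫ c = 0
  h4 : j ≫ d ≠ 0
  h5 : u ≫ p = q ≫ j
  h6 : p ≫ q = v
  n44 : ∀ x : A4⟦(1 : ℤ)⟧ ⟶ A4, x = 0
  n42 : ∀ x : A4⟦(1 : ℤ)⟧ ⟶ A2, x = 0

variable {𝒯}

namespace Data

variable (D : Data 𝒯)

/-- the source -/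
def T₁ : Triangle 𝒯 := Triangle.mk D.u D.v D.w

/-- the target -/
def T₂ : Triangle 𝒯 := Triangle.mk D.p D.d (-D.k⟦(1 : ℤ)⟧')

theorem dist₁ : D.T₁ ∈ distTriang 𝒯 := D.hu

theorem dist₂ : D.T₂ ∈ distTriang 𝒯 := rot_of_distTriang _ D.hk

theorem hjq : D.j ≫ D.q = 0 := comp_distTriang_mor_zero₁₂ _ D.hj
theorem hqe : D.q ≫ D.e = 0 := comp_distTriang_mor_zero₂₃ _ D.hj
theorem huv : D.u ≫ D.v = 0 := comp_distTriang_mor_zero₁₂ _ D.hu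
theorem hvw : D.v ≫ D.w = 0 := comp_distTriang_mor_zero₂₃ _ D.hu
theorem hwu : D.w ≫ D.u⟦(1 : ℤ)⟧' = 0 := comp_distTriang_mor_zero₃₁ _ D.hu
theorem hkp : D.k ≫ D.p = 0 := comp_distTriang_mor_zero₁₂ _ D.hk
theorem hpd : D.p ≫ D.d = 0 := comp_distTriang_mor_zero₂₃ _ D.hk
theorem hdk : D.d ≫ D.k⟦(1 : ℤ)⟧' = 0 := comp_distTriang_mor_zero₃₁ _ D.hk

/-- the third component -/
def h : D.A2 ⟶ D.A2⟦(1 : ℤ)⟧ := D.j ≫ D.d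

theorem vh : D.v ≫ D.h = 0 := by
  unfold h
  rw [← D.h6, Category.assoc, ← Category.assoc D.q, ← D.h5, Category.assoc, D.hpd, comp_zero,
    comp_zero]

/-- maps from `A2` which vanish on `A8` -/
theorem zero_of_v {x : D.A2 ⟶ D.A2} (hx : D.v ≫ x = 0) : x = 0 := by
  obtain ⟨y, hy⟩ : ∃ y : D.A4⟦(1 : ℤ)⟧ ⟶ D.A2, x = D.w ≫ y :=
    Triangle.yoneda_exact₃ _ D.hu x hx
  rw [hy, D.n42 y, comp_zero]

theorem zero_of_v' {x : D.A2 ⟶ D.A4} (hx : D.v ≫ x = 0) : x = 0 := by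
  obtain ⟨y, hy⟩ : ∃ y : D.A4⟦(1 : ℤ)⟧ ⟶ D.A4, x = D.w ≫ y :=
    Triangle.yoneda_exact₃ _ D.hu x hx
  rw [hy, D.n44 y, comp_zero]

theorem zero_of_k {x : D.A4⟦(1 : ℤ)⟧ ⟶ D.A2⟦(1 : ℤ)⟧} (hx : x ≫ D.k⟦(1 : ℤ)⟧' = 0) : x = 0 := by
  obtain ⟨y, hy⟩ : ∃ y : D.A4⟦(1 : ℤ)⟧ ⟶ D.A4, x = y ≫ D.d :=
    Triangle.coyoneda_exact₃ _ D.dist₂ x (by
      change x ≫ (-D.k⟦(1 : ℤ)⟧') = 0
      rw [Preadditive.comp_neg, hx, neg_zero])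
  rw [hy, D.n44 y, zero_comp]

/-- the map of triangles -/
@[simps] def φ : D.T₁ ⟶ D.T₂ where
  hom₁ := D.u
  hom₂ := D.p
  hom₃ := D.h
  comm₁ := rfl
  comm₂ := by
    change D.v ≫ D.h = D.p ≫ D.d
    rw [D.vh, D.hpd]
  comm₃ := by
    change D.w ≫ D.u⟦(1 : ℤ)⟧' = D.h ≫ (-D.k⟦(1 : ℤ)⟧')
    rw [D.hwu, h, Preadditive.comp_neg, Category.assoc, D.hdk, comp_zero, neg_zero]

/-- the map of triangles which is chain homotopic to it -/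
@[simps] def φ₁ : D.T₁ ⟶ D.T₂ where
  hom₁ := 0
  hom₂ := 0
  hom₃ := D.h
  comm₁ := by rw [zero_comp, comp_zero]
  comm₂ := by
    change D.v ≫ D.h = 0 ≫ D.d
    rw [D.vh, zero_comp]
  comm₃ := by
    change D.w ≫ (0 : D.A4 ⟶ D.A8)⟦(1 : ℤ)⟧' = D.h ≫ (-D.k⟦(1 : ℤ)⟧')
    rw [Functor.map_zero, comp_zero, h, Preadditive.comp_neg, Category.assoc, D.hdk, comp_zero,
      neg_zero]

theorem homotopic : ChainHomotopic D.φ D.φ₁ := by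
  have e1 : (D.u - 0)⟦(1 : ℤ)⟧' = (D.u ≫ 𝟙 D.A8)⟦(1 : ℤ)⟧' +
      (0 : D.A4⟦(1 : ℤ)⟧ ⟶ D.A2⟦(1 : ℤ)⟧) ≫ (-D.k⟦(1 : ℤ)⟧') := by
    rw [sub_zero, Category.comp_id, zero_comp, add_zero]
  have e2 : D.p - 0 = 𝟙 D.A8 ≫ D.p + D.v ≫ (0 : D.A2 ⟶ D.A4) := by
    rw [sub_zero, Category.id_comp, comp_zero, add_zero]
  have e3 : D.h - D.h = (0 : D.A2 ⟶ D.A4) ≫ D.d +
      D.w ≫ (0 : D.A4⟦(1 : ℤ)⟧ ⟶ D.A2⟦(1 : ℤ)⟧) := by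
    rw [sub_self, zero_comp, comp_zero, add_zero]
  exact ⟨𝟙 D.A8, (0 : D.A2 ⟶ D.A4), (0 : D.A4⟦(1 : ℤ)⟧ ⟶ D.A2⟦(1 : ℤ)⟧), e1, e2, e3⟩

/-- **The map is Verdier good.** -/
theorem verdierGood [IsTriangulated 𝒯] : VerdierGood D.φ := by
  obtain ⟨A, a, b, hA⟩ := distinguished_cocone_triangle (D.u ≫ D.p)
  -- the octahedron for `u` and `p`
  obtain ⟨O⟩ := IsTriangulated.octahedron_axiom (rfl : D.u ≫ D.p = _) D.hu D.dist₂ hA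
  -- the octahedron for `q` and `j`
  have hq : Triangle.mk D.q D.e (-D.j⟦(1 : ℤ)⟧') ∈ distTriang 𝒯 := rot_of_distTriang _ D.hj
  obtain ⟨O'⟩ := IsTriangulated.octahedron_axiom D.h5.symm hq D.hj hA
  -- the endomorphism
  set δ : A ⟶ A := O'.m₃ ≫ D.j ≫ a with hδ
  have haδ : a ≫ δ = 0 := by
    rw [hδ, ← Category.assoc, O'.comm₃, ← O'.comm₁, ← Category.assoc, D.hqe, zero_comp]
  have hab : a ≫ b = 0 := comp_distTriang_mor_zero₂₃ _ hA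
  have hδb : δ ≫ b = 0 := by
    rw [hδ, Category.assoc, Category.assoc, hab, comp_zero, comp_zero]
  have hδδ : δ ≫ δ = 0 := by
    conv_lhs => rw [hδ]
    rw [Category.assoc, Category.assoc, haδ, comp_zero, comp_zero]
  have hm : O.m₁ ≫ O'.m₃ = 𝟙 D.A2 := by
    rw [← sub_eq_zero]
    apply D.zero_of_v
    have e1 : D.v ≫ O.m₁ = D.p ≫ a := O.comm₁
    have e2 : a ≫ O'.m₃ = D.q := O'.comm₃
    rw [Preadditive.comp_sub, ← Category.assoc, e1, Category.assoc, e2, D.h6, Category.comp_id,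
      sub_self]
  have hmδ : O.m₁ ≫ δ ≫ O.m₃ = D.h := by
    have e3 : a ≫ O.m₃ = D.d := O.comm₃
    rw [hδ, Category.assoc, Category.assoc, e3, ← Category.assoc, hm, Category.id_comp]
    rfl
  have hmm : O.m₁ ≫ O.m₃ = 0 := comp_distTriang_mor_zero₁₂ _ O.mem
  refine ⟨A, D.A2, D.A2⟦(1 : ℤ)⟧, a, b, D.d, -D.k⟦(1 : ℤ)⟧', D.v, D.w, O.m₁ ≫ (𝟙 A + δ),
    (𝟙 A - δ) ≫ O.m₃, O.m₁, O.m₃, hA, D.dist₂, D.hu, ⟨?_, ?_, ?_, ?_, ?_⟩,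
    ⟨O.mem, O.comm₁, O.comm₂, O.comm₃, O.comm₄.symm⟩, ?_⟩
  · exact twist O.mem hδδ
  · change D.v ≫ O.m₁ ≫ (𝟙 A + δ) = D.p ≫ a
    have e1 : D.v ≫ O.m₁ = D.p ≫ a := O.comm₁
    rw [← Category.assoc, e1, Preadditive.comp_add, Category.comp_id, Category.assoc, haδ,
      comp_zero, add_zero]
  · change (O.m₁ ≫ (𝟙 A + δ)) ≫ b = D.w
    have e1 : O.m₁ ≫ b = D.w := O.comm₂
    rw [Category.assoc, Preadditive.add_comp, Category.id_comp, hδb, add_zero, e1]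
  · change a ≫ (𝟙 A - δ) ≫ O.m₃ = D.d
    have e3 : a ≫ O.m₃ = D.d := O.comm₃
    rw [← Category.assoc, Preadditive.comp_sub, Category.comp_id, haδ, sub_zero, e3]
  · change ((𝟙 A - δ) ≫ O.m₃) ≫ (-D.k⟦(1 : ℤ)⟧') = b ≫ D.u⟦(1 : ℤ)⟧'
    have e4 : b ≫ D.u⟦(1 : ℤ)⟧' = O.m₃ ≫ (-D.k⟦(1 : ℤ)⟧') := O.comm₄
    rw [Category.assoc, ← e4, ← Category.assoc, Preadditive.sub_comp, Category.id_comp, hδb,
      sub_zero]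
  · change D.h = (O.m₁ ≫ (𝟙 A + δ)) ≫ O.m₃
    rw [Category.assoc, Preadditive.add_comp, Category.id_comp, Preadditive.comp_add, hmm, zero_add,
      hmδ]

/-- splitting a triangle whose first map is zero -/
theorem split {X Y A : 𝒯} {a : Y ⟶ A} {b : A ⟶ X⟦(1 : ℤ)⟧}
    (hA : Triangle.mk (0 : X ⟶ Y) a b ∈ distTriang 𝒯) :
    ∃ (r : A ⟶ Y) (s : X⟦(1 : ℤ)⟧ ⟶ A), a ≫ r = 𝟙 Y ∧ s ≫ b = 𝟙 _ ∧ r ≫ a + b ≫ s = 𝟙 A := by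
  obtain ⟨r, hr⟩ : ∃ r : A ⟶ Y, 𝟙 Y = a ≫ r :=
    Triangle.yoneda_exact₂ _ hA (𝟙 Y) (by
      change (0 : X ⟶ Y) ≫ 𝟙 Y = 0
      rw [zero_comp])
  have hab : a ≫ b = 0 := comp_distTriang_mor_zero₂₃ _ hA
  obtain ⟨s, hs⟩ : ∃ s : X⟦(1 : ℤ)⟧ ⟶ A, 𝟙 A - r ≫ a = b ≫ s :=
    Triangle.yoneda_exact₃ _ hA (𝟙 A - r ≫ a) (by
      change a ≫ (𝟙 A - r ≫ a) = 0
      rw [Preadditive.comp_sub, Category.comp_id, ← Category.assoc, ← hr, Category.id_comp,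
        sub_self])
  refine ⟨r, s, hr.symm, ?_, by rw [← hs]; abel⟩
  -- `b` is an epimorphism
  have h1 : b ≫ (s ≫ b - 𝟙 _) = 0 := by
    rw [Preadditive.comp_sub, Category.comp_id, ← Category.assoc, ← hs, Preadditive.sub_comp,
      Category.id_comp, Category.assoc, hab, comp_zero, sub_zero, sub_self]
  obtain ⟨t, ht⟩ : ∃ t : Y⟦(1 : ℤ)⟧ ⟶ X⟦(1 : ℤ)⟧,
      s ≫ b - 𝟙 (X⟦(1 : ℤ)⟧) = (-(0 : X ⟶ Y)⟦(1 : ℤ)⟧') ≫ t :=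
    Triangle.yoneda_exact₃ _ (rot_of_distTriang _ hA) (s ≫ b - 𝟙 _) h1
  rw [Functor.map_zero, neg_zero, zero_comp] at ht
  exact sub_eq_zero.1 ht

/-- **The rotated map is not Verdier good.** -/
theorem not_rotate : ¬ VerdierGood ((rotate 𝒯).map D.φ) := by
  rintro ⟨A, X'', Y'', a, b, g', g'', f', f'', α₁, β₁, α₂, β₂, hA, -, -, ⟨-, h1, h2, -, -⟩,
    ⟨-, -, -, h3, h4⟩, h5⟩
  change D.A2⟦(1 : ℤ)⟧ ⟶ A at a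
  change A ⟶ D.A8⟦(1 : ℤ)⟧ at b
  change D.A4⟦(1 : ℤ)⟧ ⟶ A at α₁
  change A ⟶ D.A8⟦(1 : ℤ)⟧ at β₂
  change Triangle.mk (D.v ≫ D.h) a b ∈ distTriang 𝒯 at hA
  change D.w ≫ α₁ = D.h ≫ a at h1
  change α₁ ≫ b = -D.u⟦(1 : ℤ)⟧' at h2
  change a ≫ β₂ = -D.k⟦(1 : ℤ)⟧' at h3
  change β₂ ≫ (-D.p⟦(1 : ℤ)⟧') = b ≫ D.p⟦(1 : ℤ)⟧' at h4
  change D.u⟦(1 : ℤ)⟧' = α₁ ≫ β₂ at h5
  rw [D.vh] at hA
  obtain ⟨r, s, hr, hs, hrs⟩ := split hA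
  -- the second component
  have h6 : (s ≫ β₂ + 𝟙 _) ≫ D.p⟦(1 : ℤ)⟧' = 0 := by
    rw [Preadditive.comp_neg] at h4
    have h7 : β₂ ≫ D.p⟦(1 : ℤ)⟧' = -(b ≫ D.p⟦(1 : ℤ)⟧') := neg_eq_iff_eq_neg.1 h4
    rw [Preadditive.add_comp, Category.assoc, h7, Preadditive.comp_neg, ← Category.assoc, hs]
    abel
  have h8 : D.u⟦(1 : ℤ)⟧' ≫ (s ≫ β₂ + 𝟙 _) = 0 := by
    obtain ⟨y, hy⟩ := (shiftFunctor 𝒯 (1 : ℤ)).map_surjective (s ≫ β₂ + 𝟙 _)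
    rw [← hy] at h6 ⊢
    rw [← Functor.map_comp] at h6 ⊢
    have h9 : y ≫ D.p = 0 := by
      apply (shiftFunctor 𝒯 (1 : ℤ)).map_injective
      rw [h6, Functor.map_zero]
    obtain ⟨c, hc⟩ : ∃ c : D.A8 ⟶ D.A2, y = c ≫ D.k := Triangle.coyoneda_exact₂ _ D.hk y h9
    rw [hc, ← Category.assoc, D.h3 c, zero_comp, Functor.map_zero]
  -- the first component
  have h10 : α₁ ≫ β₂ = (α₁ ≫ r) ≫ (-D.k⟦(1 : ℤ)⟧') + (-D.u⟦(1 : ℤ)⟧') ≫ s ≫ β₂ := by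
    calc α₁ ≫ β₂ = α₁ ≫ (r ≫ a + b ≫ s) ≫ β₂ := by rw [hrs, Category.id_comp]
      _ = (α₁ ≫ r) ≫ (a ≫ β₂) + (α₁ ≫ b) ≫ s ≫ β₂ := by
        simp only [Preadditive.add_comp, Preadditive.comp_add, Category.assoc]
      _ = _ := by rw [h3, h2]
  have h11 : (α₁ ≫ r) ≫ D.k⟦(1 : ℤ)⟧' = 0 := by
    rw [← h5, Preadditive.comp_neg, Preadditive.neg_comp] at h10
    rw [Preadditive.comp_add, Category.comp_id] at h8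
    have h12 : D.u⟦(1 : ℤ)⟧' ≫ s ≫ β₂ = -D.u⟦(1 : ℤ)⟧' := eq_neg_of_add_eq_zero_left h8
    rw [h12] at h10
    have h13 : -((α₁ ≫ r) ≫ D.k⟦(1 : ℤ)⟧') = 0 := by
      have := h10
      rw [neg_neg] at this
      exact (add_eq_right.1 this.symm)
    exact neg_eq_zero.1 h13
  have h14 := D.zero_of_k h11
  apply D.h4
  change D.h = 0
  calc D.h = (D.h ≫ a) ≫ r := by rw [Category.assoc, hr, Category.comp_id]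
    _ = 0 := by rw [← h1, Category.assoc, h14, comp_zero]

/-- **The homotopic map is not Verdier good.** -/
theorem not_homotopic : ¬ VerdierGood D.φ₁ := by
  rintro ⟨A, X'', Y'', a, b, g', g'', f', f'', α₁, β₁, α₂, β₂, hA, -, -, ⟨-, h1, h2, -, -⟩,
    ⟨-, -, -, h3, h4⟩, h5⟩
  change D.A4 ⟶ A at a
  change A ⟶ D.A4⟦(1 : ℤ)⟧ at b
  change D.A2 ⟶ A at α₁
  change A ⟶ D.A2⟦(1 : ℤ)⟧ at β₂
  change Triangle.mk (D.u ≫ 0) a b ∈ distTriang 𝒯 at hA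
  change D.v ≫ α₁ = 0 ≫ a at h1
  change α₁ ≫ b = D.w at h2
  change a ≫ β₂ = D.d at h3
  change β₂ ≫ (-D.k⟦(1 : ℤ)⟧') = b ≫ (0 : D.A4 ⟶ D.A8)⟦(1 : ℤ)⟧' at h4
  change D.h = α₁ ≫ β₂ at h5
  rw [comp_zero] at hA
  obtain ⟨r, s, hr, hs, hrs⟩ := split hA
  have h6 : α₁ ≫ r = 0 := by
    apply D.zero_of_v'
    rw [← Category.assoc, h1, zero_comp, zero_comp]
  have h7 : s ≫ β₂ = 0 := by
    apply D.zero_of_k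
    rw [Functor.map_zero, comp_zero, Preadditive.comp_neg, neg_eq_zero] at h4
    rw [Category.assoc, h4, comp_zero]
  apply D.h4
  change D.h = 0
  calc D.h = α₁ ≫ (r ≫ a + b ≫ s) ≫ β₂ := by rw [hrs, Category.id_comp, h5]
    _ = (α₁ ≫ r) ≫ (a ≫ β₂) + (α₁ ≫ b) ≫ s ≫ β₂ := by
      simp only [Preadditive.add_comp, Preadditive.comp_add, Category.assoc]
    _ = 0 := by rw [h6, h7, zero_comp, comp_zero, add_zero]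

end Data

end Pool.Agent.N801.VG
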