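import Mathlib
import Pool.Agent.N801.VG.Abstract

/-!
# The example in the derived category of abelian groups
-/

set_option autoImplicit false

open CategoryTheory CategoryTheory.Limits CategoryTheory.Pretriangulated

universe w

namespace Pool.Agent.N801.VG

/-- linear maps from functions between the groups `ℤ/n` -/
def mkHom {m n : ℕ} (f : ZMod m → ZMod n) (hf : ∀ x y, f (x + y) = f x + f y) :
    ModuleCat.of ℤ (ZMod m) ⟶ ModuleCat.of ℤ (ZMod n) :=
  ModuleCat.ofHom (AddMonoidHom.mk' f hf).toIntLinearMap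

theorem mkHom_apply {m n : ℕ} (f : ZMod m → ZMod n) (hf : ∀ x y, f (x + y) = f x + f y)
    (x : ZMod m) : (mkHom f hf).hom x = f x := rfl

def cj : ModuleCat.of ℤ (ZMod 2) ⟶ ModuleCat.of ℤ (ZMod 4) :=
  mkHom (fun x => 2 * (x.val : ZMod 4)) (by decide)
def cq : ModuleCat.of ℤ (ZMod 4) ⟶ ModuleCat.of ℤ (ZMod 2) :=
  mkHom (fun x => (x.val : ZMod 2)) (by decide)
def cu : ModuleCat.of ℤ (ZMod 4) ⟶ ModuleCat.of ℤ (ZMod 8) :=
  mkHom (fun x => 2 * (x.val : ZMod 8)) (by decide)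
def cv : ModuleCat.of ℤ (ZMod 8) ⟶ ModuleCat.of ℤ (ZMod 2) :=
  mkHom (fun x => (x.val : ZMod 2)) (by decide)
def ck : ModuleCat.of ℤ (ZMod 2) ⟶ ModuleCat.of ℤ (ZMod 8) :=
  mkHom (fun x => 4 * (x.val : ZMod 8)) (by decide)
def cp : ModuleCat.of ℤ (ZMod 8) ⟶ ModuleCat.of ℤ (ZMod 4) :=
  mkHom (fun x => (x.val : ZMod 4)) (by decide)

theorem shortExact {l m n : ℕ} {f : ModuleCat.of ℤ (ZMod l) ⟶ ModuleCat.of ℤ (ZMod m)}
    {g : ModuleCat.of ℤ (ZMod m) ⟶ ModuleCat.of ℤ (ZMod n)} (hfg : f ≫ g = 0)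
    (h1 : ∀ x y : ZMod l, f.hom x = f.hom y → x = y) (h2 : ∀ z : ZMod n, ∃ y : ZMod m, g.hom y = z)
    (h3 : ∀ y : ZMod m, g.hom y = 0 → ∃ x : ZMod l, f.hom x = y) :
    (ShortComplex.mk f g hfg).ShortExact where
  exact := by
    rw [ShortComplex.moduleCat_exact_iff]
    exact h3
  mono_f := by
    rw [ModuleCat.mono_iff_injective]
    exact fun x y h => h1 x y h
  epi_g := by
    rw [ModuleCat.epi_iff_surjective]
    exact h2

theorem jq0 : cj ≫ cq = 0 :=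
  ModuleCat.hom_ext (LinearMap.ext
    (by decide : ∀ x : ZMod 2, ((2 * (x.val : ZMod 4)).val : ZMod 2) = 0))

theorem uv0 : cu ≫ cv = 0 :=
  ModuleCat.hom_ext (LinearMap.ext
    (by decide : ∀ x : ZMod 4, ((2 * (x.val : ZMod 8)).val : ZMod 2) = 0))

theorem kp0 : ck ≫ cp = 0 :=
  ModuleCat.hom_ext (LinearMap.ext
    (by decide : ∀ x : ZMod 2, ((4 * (x.val : ZMod 8)).val : ZMod 4) = 0))

theorem up_qj : cu ≫ cp = cq ≫ cj :=
  ModuleCat.hom_ext (LinearMap.ext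
    (by decide : ∀ x : ZMod 4, ((2 * (x.val : ZMod 8)).val : ZMod 4) =
      2 * (((x.val : ZMod 2).val : ℕ) : ZMod 4)))

theorem pq_v : cp ≫ cq = cv :=
  ModuleCat.hom_ext (LinearMap.ext
    (by decide : ∀ x : ZMod 8, (((x.val : ZMod 4).val : ℕ) : ZMod 2) = (x.val : ZMod 2)))

theorem ses_j : (ShortComplex.mk cj cq jq0).ShortExact :=
  shortExact jq0
    (by decide : ∀ x y : ZMod 2, 2 * (x.val : ZMod 4) = 2 * (y.val : ZMod 4) → x = y)
    (by decide : ∀ z : ZMod 2, ∃ y : ZMod 4, (y.val : ZMod 2) = z)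
    (by decide : ∀ y : ZMod 4, (y.val : ZMod 2) = 0 → ∃ x : ZMod 2, 2 * (x.val : ZMod 4) = y)

theorem ses_u : (ShortComplex.mk cu cv uv0).ShortExact :=
  shortExact uv0
    (by decide : ∀ x y : ZMod 4, 2 * (x.val : ZMod 8) = 2 * (y.val : ZMod 8) → x = y)
    (by decide : ∀ z : ZMod 2, ∃ y : ZMod 8, (y.val : ZMod 2) = z)
    (by decide : ∀ y : ZMod 8, (y.val : ZMod 2) = 0 → ∃ x : ZMod 4, 2 * (x.val : ZMod 8) = y)

theorem ses_k : (ShortComplex.mk ck cp kp0).ShortExact :=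
  shortExact kp0
    (by decide : ∀ x y : ZMod 2, 4 * (x.val : ZMod 8) = 4 * (y.val : ZMod 8) → x = y)
    (by decide : ∀ z : ZMod 4, ∃ y : ZMod 8, (y.val : ZMod 4) = z)
    (by decide : ∀ y : ZMod 8, (y.val : ZMod 4) = 0 → ∃ x : ZMod 2, 4 * (x.val : ZMod 8) = y)

theorem u_comp (c : ModuleCat.of ℤ (ZMod 8) ⟶ ModuleCat.of ℤ (ZMod 2)) : cu ≫ c = 0 := by
  refine ModuleCat.hom_ext (LinearMap.ext fun x => ?_)
  have h1 : (cu ≫ c).hom x = c.hom (2 * ((@ZMod.val 4 x : ℕ) : ZMod 8)) := rfl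
  rw [h1, two_mul]
  exact (map_add c.hom.toAddMonoidHom _ _).trans ((by decide : ∀ y : ZMod 2, y + y = 0) _)

theorem j_lift (l : ModuleCat.of ℤ (ZMod 2) ⟶ ModuleCat.of ℤ (ZMod 8)) : cj ≠ l ≫ cp := by
  intro h
  have h1 : cj.hom (1 : ZMod 2) = (l ≫ cp).hom (1 : ZMod 2) := by rw [h]
  let y : ZMod 8 := l.hom (1 : ZMod 2)
  have h2 : (2 : ZMod 4) * (((1 : ZMod 2).val : ℕ) : ZMod 4) = ((y.val : ℕ) : ZMod 4) := h1
  have h3 : y + y = 0 := by
    have h4 : (1 : ZMod 2) + 1 = 0 := by decide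
    have h5 : l.hom ((1 : ZMod 2) + 1 : ZMod 2) = y + y := map_add l.hom.toAddMonoidHom _ _
    rw [← h5, h4]
    exact map_zero l.hom.toAddMonoidHom
  exact (by decide : ∀ y : ZMod 8, (2 : ZMod 4) * (((1 : ZMod 2).val : ℕ) : ZMod 4) =
    ((y.val : ℕ) : ZMod 4) → y + y = 0 → False) y h2 h3

section

variable [HasDerivedCategory.{w} (ModuleCat.{0} ℤ)]

/-- the embedding in the derived category -/
noncomputable abbrev F : ModuleCat.{0} ℤ ⥤ DerivedCategory (ModuleCat.{0} ℤ) :=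
  DerivedCategory.singleFunctor (ModuleCat.{0} ℤ) 0

theorem neg_zero' (A B : ModuleCat.{0} ℤ) (x : (F.obj A)⟦(1 : ℤ)⟧ ⟶ F.obj B) : x = 0 := by
  have h1 : (F.obj A).IsLE 0 := inferInstance
  have h2 : (F.obj B).IsGE 0 := inferInstance
  have h3 : ((F.obj A)⟦(1 : ℤ)⟧).IsLE (-1) :=
    DerivedCategory.TStructure.t.isLE_shift (F.obj A) 0 1 (-1) (by norm_num)
  exact DerivedCategory.TStructure.t.zero x (-1) 0 (by norm_num)

/-- **The data of the example in the derived category of abelian groups.** -/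
noncomputable def data : Data (DerivedCategory (ModuleCat.{0} ℤ)) where
  A2 := F.obj (ModuleCat.of ℤ (ZMod 2))
  A4 := F.obj (ModuleCat.of ℤ (ZMod 4))
  A8 := F.obj (ModuleCat.of ℤ (ZMod 8))
  j := F.map cj
  q := F.map cq
  e := ses_j.singleδ
  hj := ses_j.singleTriangle_distinguished
  u := F.map cu
  v := F.map cv
  w := ses_u.singleδ
  hu := ses_u.singleTriangle_distinguished
  k := F.map ck
  p := F.map cp
  d := ses_k.singleδ
  hk := ses_k.singleTriangle_distinguished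
  h3 c := by
    obtain ⟨c', rfl⟩ := F.map_surjective c
    rw [← Functor.map_comp, u_comp, Functor.map_zero]
  h4 h := by
    obtain ⟨l, hl⟩ : ∃ l : F.obj (ModuleCat.of ℤ (ZMod 2)) ⟶ F.obj (ModuleCat.of ℤ (ZMod 8)),
        F.map cj = l ≫ F.map cp :=
      Triangle.coyoneda_exact₃ _ ses_k.singleTriangle_distinguished (F.map cj) h
    obtain ⟨l', rfl⟩ := F.map_surjective l
    rw [← Functor.map_comp] at hl
    exact j_lift l' (F.map_injective hl)
  h5 := by rw [← Functor.map_comp, ← Functor.map_comp, up_qj]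
  h6 := by rw [← Functor.map_comp, pq_v]
  n44 := neg_zero' _ _
  n42 := neg_zero' _ _

end

end Pool.Agent.N801.VG
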