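import Mathlib
import Pool.Agent.N801.VG.Defs

/-!
# Good maps of triangles
-/

set_option autoImplicit false

open CategoryTheory CategoryTheory.Limits CategoryTheory.Pretriangulated

universe v u

namespace Pool.Agent.N801.VG

variable {𝒯 : Type u} [Category.{v} 𝒯] [Preadditive 𝒯] [HasZeroObject 𝒯] [HasShift 𝒯 ℤ]
  [∀ n : ℤ, (shiftFunctor 𝒯 n).Additive] [Pretriangulated 𝒯]

/-- The map `φ = (f, g, h)` of exact triangles is good: its mapping cone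
`Y ⊕ X' ⟶ Z ⊕ Y' ⟶ ΣX ⊕ Z' ⟶ Σ(Y ⊕ X')`, with the maps `(y, x') ↦ (-vy, gy + u'x')`,
`(z, y') ↦ (-wz, hz + v'y')` and `(x, z') ↦ (-Σu x, Σf x + w'z')`, is an exact triangle. -/
def Good {T T' : Triangle 𝒯} (φ : T ⟶ T') : Prop :=
  Triangle.mk
    (biprod.desc (biprod.lift (-T.mor₂) φ.hom₂) (biprod.lift 0 T'.mor₁) :
      T.obj₂ ⊞ T'.obj₁ ⟶ T.obj₃ ⊞ T'.obj₂)
    (biprod.desc (biprod.lift (-T.mor₃) φ.hom₃) (biprod.lift 0 T'.mor₂) :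
      T.obj₃ ⊞ T'.obj₂ ⟶ T.obj₁⟦(1 : ℤ)⟧ ⊞ T'.obj₃)
    (biprod.desc
      (-(T.mor₁⟦(1 : ℤ)⟧' ≫ biprod.inl⟦(1 : ℤ)⟧') + φ.hom₁⟦(1 : ℤ)⟧' ≫ biprod.inr⟦(1 : ℤ)⟧')
      (T'.mor₃ ≫ biprod.inr⟦(1 : ℤ)⟧') :
      T.obj₁⟦(1 : ℤ)⟧ ⊞ T'.obj₃ ⟶ (T.obj₂ ⊞ T'.obj₁)⟦(1 : ℤ)⟧) ∈ distTriang 𝒯

end Pool.Agent.N801.VG
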