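import Pool.Agent.N801.VG.GoodDefs
import Pool.Agent.N801.VG.Concrete

/-!
# The example is not good
-/

set_option autoImplicit false
set_option linter.unusedSectionVars false
set_option linter.unusedSimpArgs false

open CategoryTheory CategoryTheory.Limits CategoryTheory.Pretriangulated

universe v u

namespace Pool.Agent.N801.VG

variable {𝒯 : Type u} [Category.{v} 𝒯] [Preadditive 𝒯] [HasZeroObject 𝒯] [HasShift 𝒯 ℤ]
  [∀ n : ℤ, (shiftFunctor 𝒯 n).Additive] [Pretriangulated 𝒯]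

namespace Data

variable (D : Data 𝒯)

/-- **The map is not good.** -/
theorem not_good : ¬ Good D.φ := by
  intro hG
  have hG' : Triangle.mk
      (biprod.desc (biprod.lift (-D.v) D.p) (biprod.lift 0 D.p) : D.A8 ⊞ D.A8 ⟶ D.A2 ⊞ D.A4)
      (biprod.desc (biprod.lift (-D.w) D.h) (biprod.lift 0 D.d) :
        D.A2 ⊞ D.A4 ⟶ D.A4⟦(1 : ℤ)⟧ ⊞ D.A2⟦(1 : ℤ)⟧)
      (biprod.desc
        (-(D.u⟦(1 : ℤ)⟧' ≫ biprod.inl⟦(1 : ℤ)⟧') + D.u⟦(1 : ℤ)⟧' ≫ biprod.inr⟦(1 : ℤ)⟧')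
        ((-D.k⟦(1 : ℤ)⟧') ≫ biprod.inr⟦(1 : ℤ)⟧') :
        D.A4⟦(1 : ℤ)⟧ ⊞ D.A2⟦(1 : ℤ)⟧ ⟶ (D.A8 ⊞ D.A8)⟦(1 : ℤ)⟧) ∈ distTriang 𝒯 := hG
  have hR : Triangle.mk D.v D.w (-D.u⟦(1 : ℤ)⟧') ∈ distTriang 𝒯 := rot_of_distTriang _ D.hu
  obtain ⟨c, hc1, hc2⟩ : ∃ c : D.A4⟦(1 : ℤ)⟧ ⟶ D.A4⟦(1 : ℤ)⟧ ⊞ D.A2⟦(1 : ℤ)⟧,
      D.w ≫ c = (biprod.lift (-𝟙 D.A2) 0 : D.A2 ⟶ D.A2 ⊞ D.A4) ≫
        biprod.desc (biprod.lift (-D.w) D.h) (biprod.lift 0 D.d) ∧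
      (-D.u⟦(1 : ℤ)⟧') ≫ (biprod.lift (𝟙 D.A8) (-𝟙 D.A8) : D.A8 ⟶ D.A8 ⊞ D.A8)⟦(1 : ℤ)⟧' =
        c ≫ biprod.desc
          (-(D.u⟦(1 : ℤ)⟧' ≫ biprod.inl⟦(1 : ℤ)⟧') + D.u⟦(1 : ℤ)⟧' ≫ biprod.inr⟦(1 : ℤ)⟧')
          ((-D.k⟦(1 : ℤ)⟧') ≫ biprod.inr⟦(1 : ℤ)⟧') :=
    complete_distinguished_triangle_morphism _ _ hR hG'
      (biprod.lift (𝟙 D.A8) (-𝟙 D.A8)) (biprod.lift (-𝟙 D.A2) 0) (by
        change D.v ≫ biprod.lift (-𝟙 D.A2) 0 = biprod.lift (𝟙 D.A8) (-𝟙 D.A8) ≫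
          biprod.desc (biprod.lift (-D.v) D.p) (biprod.lift 0 D.p)
        ext <;> simp)
  set c₁ : D.A4⟦(1 : ℤ)⟧ ⟶ D.A4⟦(1 : ℤ)⟧ := c ≫ biprod.fst with hc₁
  set c₂ : D.A4⟦(1 : ℤ)⟧ ⟶ D.A2⟦(1 : ℤ)⟧ := c ≫ biprod.snd with hc₂
  have hc : c = biprod.lift c₁ c₂ := by
    ext <;> simp [hc₁, hc₂]
  -- the first component
  have e1 : -D.u⟦(1 : ℤ)⟧' = -(c₁ ≫ D.u⟦(1 : ℤ)⟧') := by
    have h1 := congrArg (fun x => x ≫ (biprod.fst : D.A8 ⊞ D.A8 ⟶ D.A8)⟦(1 : ℤ)⟧') hc2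
    simp only [Category.assoc] at h1
    rw [← Functor.map_comp, biprod.lift_fst, CategoryTheory.Functor.map_id, Category.comp_id] at h1
    rw [h1, hc]
    simp only [biprod.lift_desc_assoc, biprod.lift_desc, Preadditive.add_comp, Category.assoc,
      Preadditive.neg_comp, Preadditive.comp_neg, Preadditive.comp_add, ← Functor.map_comp,
      biprod.inl_fst, biprod.inr_fst, CategoryTheory.Functor.map_id, Category.comp_id,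
      Functor.map_zero, comp_zero, neg_zero, add_zero]
  have e2 : D.u⟦(1 : ℤ)⟧' = c₁ ≫ D.u⟦(1 : ℤ)⟧' - c₂ ≫ D.k⟦(1 : ℤ)⟧' := by
    have h1 := congrArg (fun x => x ≫ (biprod.snd : D.A8 ⊞ D.A8 ⟶ D.A8)⟦(1 : ℤ)⟧') hc2
    simp only [Category.assoc] at h1
    rw [← Functor.map_comp, biprod.lift_snd, Functor.map_neg, CategoryTheory.Functor.map_id,
      Preadditive.neg_comp, Preadditive.comp_neg, neg_neg, Category.comp_id] at h1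
    refine h1.trans ?_
    rw [hc]
    simp only [biprod.lift_desc_assoc, biprod.lift_desc, Preadditive.add_comp, Category.assoc,
      Preadditive.neg_comp, Preadditive.comp_neg, Preadditive.comp_add, ← Functor.map_comp,
      biprod.inl_snd, biprod.inr_snd, CategoryTheory.Functor.map_id, Category.comp_id,
      Functor.map_zero, comp_zero, neg_zero, zero_add]
    abel
  have e3 : c₂ = 0 := by
    apply D.zero_of_k
    rw [neg_inj] at e1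
    rw [← e1] at e2
    exact sub_eq_self.1 e2.symm
  have e4 : D.h = 0 := by
    have h1 := congrArg (fun x => x ≫ (biprod.snd : D.A4⟦(1 : ℤ)⟧ ⊞ D.A2⟦(1 : ℤ)⟧ ⟶ _)) hc1
    simp only [Category.assoc] at h1
    rw [← hc₂, e3, comp_zero] at h1
    simp only [biprod.lift_desc_assoc, biprod.lift_desc, Preadditive.add_comp, Category.assoc,
      Preadditive.neg_comp, Preadditive.comp_neg, Preadditive.comp_add, Category.id_comp,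
      biprod.lift_snd, zero_comp, add_zero] at h1
    exact neg_eq_zero.1 h1.symm
  exact D.h4 e4

end Data

end Pool.Agent.N801.VG
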